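import Pool.Agent.Y360.SX.Gen
import Pool.Agent.W22.EH.EX
import Pool.Agent.W903.EH.BK
import Pool.Agent.W347.EH.KT
import Pool.Agent.TH158.FM.Main
import Pool.Agent.Y969.SM.Stm

set_option autoImplicit false

/-!
Project SX (helper969), task F8: the eighth moment of zeta from Weyl's bound and the fourth moment.
-/

namespace Pool.Agent.Y360.SX

open Pool.Agent.Y969.SM (Xz S_F8)

lemma Xz_eq (t : ℝ) : Xz t = ‖riemannZeta (1 / 2 + t * Complex.I)‖ := by
  unfold Xz Pool.Agent.H306R2.SM.cl
  norm_num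

lemma Xz_cont : Continuous Xz := by
  have h : Xz = fun t : ℝ => ‖riemannZeta (1 / 2 + t * Complex.I)‖ := funext Xz_eq
  rw [h]
  rw [continuous_iff_continuousAt]
  intro t
  have h1 : ContinuousAt riemannZeta (1 / 2 + t * Complex.I) := by
    apply (differentiableAt_riemannZeta _).continuousAt
    intro e
    have := congrArg Complex.re e
    norm_num at this
  have h2 : ContinuousAt (fun t : ℝ => (1 / 2 + t * Complex.I : ℂ)) t := by fun_prop
  exact (ContinuousAt.comp (f := fun t : ℝ => (1 / 2 + t * Complex.I : ℂ)) h1 h2).norm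

theorem t_F8 : S_F8 := by
  apply f8_gen Xz Xz_cont (fun t => norm_nonneg _)
  · intro T hT
    have h := Pool.Agent.TH158.FM.fourth_all T hT
    refine le_trans (le_of_eq ?_) h
    congr 1
    funext t
    rw [Xz_eq]
    congr 3
    unfold Pool.Agent.TH158.FM.pt
    push_cast
    ring
  · intro ε hε
    obtain ⟨T0, hT0⟩ := Pool.Agent.W22.EH.ex (Pool.Agent.W903.EH.bk Pool.Agent.W347.EH.kt)
      Pool.Agent.W903.EH.b1 ε hε
    exact ⟨T0, fun t ht => by rw [Xz_eq]; exact (hT0 t ht).1⟩

end Pool.Agent.Y360.SX
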