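import Mathlib

set_option autoImplicit false

/-!
Project SX (helper969), task F8: the eighth moment from a fourth moment bound and a pointwise bound
(generic form).
-/

namespace Pool.Agent.Y360.SX

open MeasureTheory Filter Topology

/-- powers of the logarithm against a small power -/
lemma log4_le {δ : ℝ} (hδ : 0 < δ) : ∃ A : ℝ, 0 < A ∧ ∀ T : ℝ, 1 ≤ T → Real.log T ^ 4 ≤ A * T ^ δ := by
  refine ⟨(4 / δ) ^ 4, by positivity, fun T hT => ?_⟩
  have h1 : Real.log T ≤ T ^ (δ / 4) / (δ / 4) := Real.log_le_rpow_div (by linarith) (by positivity)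
  have h0 : 0 ≤ Real.log T := Real.log_nonneg hT
  calc Real.log T ^ 4 ≤ (T ^ (δ / 4) / (δ / 4)) ^ 4 := by gcongr
    _ = (4 / δ) ^ 4 * (T ^ (δ / 4)) ^ 4 := by
        field_simp
    _ = (4 / δ) ^ 4 * T ^ δ := by
        congr 1
        rw [← Real.rpow_natCast, ← Real.rpow_mul (by linarith)]
        congr 1
        push_cast
        ring

theorem f8_gen (g : ℝ → ℝ) (hc : Continuous g) (hg : ∀ t, 0 ≤ g t)
    (h4 : ∀ T : ℝ, 1000 ≤ T → ∫ t in (0:ℝ)..T, g t ^ 4 ≤ 4 / 5 * (T * Real.log T ^ 4))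
    (hE : ∀ ε : ℝ, 0 < ε → ∃ T0 : ℝ, ∀ t : ℝ, T0 ≤ t → g t ≤ t ^ (1 / 6 + ε)) :
    ∀ ε : ℝ, 0 < ε → ∃ C : ℝ, 0 < C ∧ ∀ T : ℝ, 1 ≤ T →
      ∫ t in (0:ℝ)..T, g t ^ 8 ≤ C * T ^ (5 / 3 + ε) := by
  intro ε hε
  obtain ⟨T0, hT0⟩ := hE (ε / 8) (by positivity)
  obtain ⟨A, hA, hlog⟩ := log4_le (δ := ε / 2) (by positivity)
  -- the bound of the fourth power
  obtain ⟨M, hM1, hM⟩ : ∃ M : ℝ, 1 ≤ M ∧ ∀ T : ℝ, 1 ≤ T → ∀ t ∈ Set.Icc (0:ℝ) T,
      g t ^ 4 ≤ M * T ^ (2 / 3 + ε / 2) := by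
    obtain ⟨B, hB⟩ := (isCompact_Icc (a := (0:ℝ)) (b := max T0 1)).exists_bound_of_continuousOn
      (hc.pow 4).continuousOn
    refine ⟨max B 1, le_max_right _ _, fun T hT t ht => ?_⟩
    have hTp : 1 ≤ T ^ (2 / 3 + ε / 2) := Real.one_le_rpow hT (by positivity)
    by_cases h : t ≤ max T0 1
    · have h1 := hB t ⟨ht.1, h⟩
      have h5 : 0 ≤ g t ^ 4 := by have := hg t; positivity
      rw [Pi.pow_apply, Real.norm_of_nonneg h5] at h1
      have hm : 0 ≤ max B 1 := le_trans zero_le_one (le_max_right _ _)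
      calc g t ^ 4 ≤ B := h1
        _ ≤ max B 1 * 1 := by rw [mul_one]; exact le_max_left _ _
        _ ≤ _ := mul_le_mul_of_nonneg_left hTp hm
    · push Not at h
      have h2 : T0 ≤ t := (le_max_left _ _).trans h.le
      have h3 : 1 ≤ t := (le_max_right _ _).trans h.le
      have h4 := hT0 t h2
      calc g t ^ 4 ≤ (t ^ (1 / 6 + ε / 8)) ^ 4 := by gcongr; exact hg t
        _ = t ^ (2 / 3 + ε / 2) := by
            rw [← Real.rpow_natCast, ← Real.rpow_mul (by linarith)]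
            congr 1
            push_cast
            ring
        _ ≤ T ^ (2 / 3 + ε / 2) := by
            apply Real.rpow_le_rpow (by linarith) ht.2 (by positivity)
        _ ≤ max B 1 * T ^ (2 / 3 + ε / 2) := le_mul_of_one_le_left (by linarith) (le_max_right _ _)
  have hM0 : 0 < M := by linarith
  -- the fourth moment
  obtain ⟨D, hD, hD4⟩ : ∃ D : ℝ, 0 < D ∧ ∀ T : ℝ, 1 ≤ T →
      ∫ t in (0:ℝ)..T, g t ^ 4 ≤ D * T ^ (1 + ε / 2) := by
    have hi : ∀ a b : ℝ, IntervalIntegrable (fun t => g t ^ 4) volume a b :=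
      fun a b => (hc.pow 4).intervalIntegrable a b
    have hn : ∀ a b : ℝ, a ≤ b → 0 ≤ ∫ t in a..b, g t ^ 4 := fun a b hab =>
      intervalIntegral.integral_nonneg hab fun t _ => by have := hg t; positivity
    refine ⟨4 / 5 * A + ∫ t in (0:ℝ)..1000, g t ^ 4, by
      have := hn 0 1000 (by norm_num); positivity, fun T hT => ?_⟩
    have hTp : 1 ≤ T ^ (1 + ε / 2) := Real.one_le_rpow hT (by positivity)
    have hN := hn 0 1000 (by norm_num)
    by_cases h : 1000 ≤ T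
    · have h1 := h4 T h
      have h2 := hlog T hT
      have h3 : T * T ^ (ε / 2) = T ^ (1 + ε / 2) := by
        rw [Real.rpow_add (by linarith), Real.rpow_one]
      calc ∫ t in (0:ℝ)..T, g t ^ 4 ≤ 4 / 5 * (T * Real.log T ^ 4) := h1
        _ ≤ 4 / 5 * (T * (A * T ^ (ε / 2))) := by gcongr
        _ = 4 / 5 * A * (T * T ^ (ε / 2)) := by ring
        _ = 4 / 5 * A * T ^ (1 + ε / 2) := by rw [h3]
        _ ≤ _ := by gcongr; linarith
    · push Not at h
      have h1 : ∫ t in (0:ℝ)..T, g t ^ 4 ≤ ∫ t in (0:ℝ)..1000, g t ^ 4 := by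
        rw [← intervalIntegral.integral_add_adjacent_intervals (hi 0 T) (hi T 1000)]
        linarith [hn T 1000 h.le]
      calc ∫ t in (0:ℝ)..T, g t ^ 4 ≤ ∫ t in (0:ℝ)..1000, g t ^ 4 := h1
        _ ≤ (4 / 5 * A + ∫ t in (0:ℝ)..1000, g t ^ 4) * 1 := by
            rw [mul_one]; linarith [mul_pos (by norm_num : (0:ℝ) < 4 / 5) hA]
        _ ≤ _ := by gcongr
  refine ⟨M * D, by positivity, fun T hT => ?_⟩
  have hT0' : 0 < T := by linarith
  have hle : ∫ t in (0:ℝ)..T, g t ^ 8 ≤ ∫ t in (0:ℝ)..T, M * T ^ (2 / 3 + ε / 2) * g t ^ 4 := by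
    apply intervalIntegral.integral_mono_on (by linarith)
      ((hc.pow 8).intervalIntegrable _ _) ((continuous_const.mul (hc.pow 4)).intervalIntegrable _ _)
    intro t ht
    have h1 := hM T hT t ht
    have h2 : 0 ≤ g t ^ 4 := by have := hg t; positivity
    calc g t ^ 8 = g t ^ 4 * g t ^ 4 := by ring
      _ ≤ _ := mul_le_mul_of_nonneg_right h1 h2
  rw [intervalIntegral.integral_const_mul] at hle
  calc ∫ t in (0:ℝ)..T, g t ^ 8 ≤ M * T ^ (2 / 3 + ε / 2) * ∫ t in (0:ℝ)..T, g t ^ 4 := hle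
    _ ≤ M * T ^ (2 / 3 + ε / 2) * (D * T ^ (1 + ε / 2)) := by gcongr; exact hD4 T hT
    _ = M * D * (T ^ (2 / 3 + ε / 2) * T ^ (1 + ε / 2)) := by ring
    _ = M * D * T ^ (5 / 3 + ε) := by
        rw [← Real.rpow_add hT0']
        congr 2
        ring

end Pool.Agent.Y360.SX
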